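import Mathlib

/-!
# Library WEIL (captain helper20): Weil's bound for Kloosterman sums, elementary proof

Stepanov's method for `y ^ 2 = f(x)` over a finite field with `R ^ 2` elements, the `L`-function of
the Kloosterman sums, and a lemma on power sums.  Definitions.
-/

set_option autoImplicit false

open Polynomial Finset

namespace Pool.Agent.Work.MP_122e00_nt.WEIL

/-- The Kloosterman sum `∑ e((a x + b x⁻¹) / q)` over the units `x` modulo `q`. -/
noncomputable def KS (q : ℕ) [NeZero q] (a b : ZMod q) : ℂ :=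
  ∑ x : (ZMod q)ˣ, ZMod.stdAddChar (a * (x : ZMod q) + b * ((x⁻¹ : (ZMod q)ˣ) : ZMod q))

open Classical in
/-- The Kloosterman sum over a finite extension `F` of `ZMod p`. -/
noncomputable def KF (p : ℕ) [Fact p.Prime] (F : Type) [Field F] [Fintype F] [Algebra (ZMod p) F]
    (a b : ZMod p) : ℂ :=
  ∑ x : F, if x = 0 then 0 else
    ZMod.stdAddChar (Algebra.trace (ZMod p) F (a • x + b • x⁻¹))

open Classical in
/-- The monic polynomials of degree `n` over `ZMod p`. -/
noncomputable def Mon (p : ℕ) [Fact p.Prime] (n : ℕ) : Finset (ZMod p)[X] :=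
  univ.image (fun v : Fin n → ZMod p => X ^ n + ∑ i : Fin n, C (v i) * X ^ (i : ℕ))

open Classical in
/-- The monic irreducible polynomials of degree `d` over `ZMod p`. -/
noncomputable def Irr (p : ℕ) [Fact p.Prime] (d : ℕ) : Finset (ZMod p)[X] :=
  (Mon p d).filter (fun P => Irreducible P)

/-- The multiplicative function `η(h) = ψ(∑ (a x + b x⁻¹))`, the sum over the roots `x` of the monic
polynomial `h`; `η(h) = 0` if `h(0) = 0`. -/
noncomputable def eta (p : ℕ) [Fact p.Prime] (a b : ZMod p) (h : (ZMod p)[X]) : ℂ :=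
  if h.coeff 0 = 0 then 0 else
    ZMod.stdAddChar (-(a * h.nextCoeff) - b * (h.coeff 1 / h.coeff 0))

/-- The coefficients of the `L`-function. -/
noncomputable def cn (p : ℕ) [Fact p.Prime] (a b : ZMod p) (n : ℕ) : ℂ :=
  ∑ h ∈ Mon p n, eta p a b h

/-- The coefficients of the logarithmic derivative of the `L`-function. -/
noncomputable def Lam (p : ℕ) [Fact p.Prime] (a b : ZMod p) (n : ℕ) : ℂ :=
  ∑ d ∈ n.divisors, ∑ P ∈ Irr p d, (d : ℂ) * eta p a b P ^ (n / d)

/-- `f` is not a constant times a square. -/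
def NSq {F : Type} [Field F] (f : F[X]) : Prop := ∀ (c : F) (h : F[X]), f ≠ C c * h ^ 2

end Pool.Agent.Work.MP_122e00_nt.WEIL
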