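import Pool.Agent.Work.MP_122e00_nt.WEIL.Defs

/-!
# Library WEIL: statements

The docstring of each statement is its complete proof; nothing here is a theorem.  Each item `Xx`
proves `StXx` in the file `I_Xx.lean`.  `Q = Fintype.card F`, `E^k = Polynomial.hasseDeriv k`.
-/

set_option autoImplicit false

open Polynomial Finset

namespace Pool.Agent.Work.MP_122e00_nt.WEIL

/-! ### Part A: Stepanov's method -/

/-- (Pk, MEDIUM) Hasse derivatives of a power.  Induction on `N`, for all `k`.  `N = 0`: `P = 1` for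
`k = 0` and `P = 0` for `k > 0` (`hasseDeriv_apply_one`).  Step: by `hasseDeriv_mul`,
`E^k (f^N * f) = ∑_(i+j=k) E^i (f^N) * E^j f`, and `f^k = f^i * f^j`, so
`f^k E^k (f^(N+1)) = ∑ (f^i E^i (f^N)) (f^j E^j f) = ∑ f^N P_i (f^j E^j f)`: for `j = 0` the term is
`f^(N+1) P_i`, for `j ≥ 1` it is `f^(N+1) P_i f^(j-1) E^j f`.  Degrees: `deg P_i ≤ i m`,
`deg (f^(j-1) E^j f) ≤ j m` (`natDegree_hasseDeriv_le`). -/
def StPk : Prop := ∀ (F : Type) [Field F] (f : F[X]) (N k : ℕ), ∃ P : F[X],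
  f ^ k * hasseDeriv k (f ^ N) = f ^ N * P ∧ P.natDegree ≤ k * f.natDegree

/-- (XQ, EASY-MEDIUM) `hasseDeriv_mul`: it is enough that `E^i (X^(Q j)) = 0` for `0 < i < Q`, and
by `hasseDeriv_monomial` that `choose (Q j) i = 0` in `F`.  `Q` is a power of the characteristic
(`FiniteField.card`), so `(1 + X)^(Q j) = (1 + X^Q)^j` in `F[X]` (`add_pow_char_pow` or
`FiniteField`), and the coefficient of `X^i` on the right is `0` if `Q ∤ i` (it is
`expand F Q ((1 + X)^j)`, `coeff_expand`; left: `coeff_one_add_X_pow`). -/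
def StXQ : Prop := ∀ (F : Type) [Field F] [Fintype F] (h : F[X]) (j k : ℕ),
  k < Fintype.card F → hasseDeriv k (h * X ^ (Fintype.card F * j)) =
    hasseDeriv k h * X ^ (Fintype.card F * j)

/-- (Va, EASY-MEDIUM) `(taylor x r).coeff k = (E^k r).eval x` (`taylor_coeff`), so `X^l ∣ taylor x r`
(`X_pow_dvd_iff`); substitute `X - C x` (`taylor (-x)`, `taylor_taylor`, `taylor_mul`). -/
def StVa : Prop := ∀ (F : Type) [Field F] (r : F[X]) (x : F) (l : ℕ),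
  (∀ k < l, (hasseDeriv k r).eval x = 0) → (X - C x) ^ l ∣ r

/-- (Cn, EASY) The polynomials `(X - C x)^l`, `x ∈ S`, are pairwise coprime
(`pairwise_coprime_X_sub_C`, `IsCoprime.pow`), so their product divides `r`
(`Finset.prod_dvd_of_coprime`), and it has degree `l * S.card`. -/
def StCn : Prop := ∀ (F : Type) [Field F] (r : F[X]) (S : Finset F) (l : ℕ), r ≠ 0 →
  (∀ x ∈ S, (X - C x) ^ l ∣ r) → l * S.card ≤ r.natDegree

/-- (In, MEDIUM) Independence.  Suppose not, and let `k` be the least index with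
`(r_k, s_k) ≠ (0, 0)`; then `A ≥ 1`.  `(r_k + s_k f^N) X^(Q k) = -∑_(j>k) (..) X^(Q j)`, so
`X^Q ∣ r_k + s_k f^N`; multiply by `f (r_k - s_k f^N)`: `X^Q ∣ f r_k^2 - s_k^2 f^Q`
(`2 N + 1 = Q`).  `f^Q = expand F Q f` (`FiniteField.expand_card`), congruent to `C (f.coeff 0)`
modulo `X^Q`.  So `X^Q` divides `f r_k^2 - C (f.coeff 0) s_k^2`, of degree
`≤ m + 2 (A - 1) < Q`; hence `f r_k^2 = C (f.coeff 0) s_k^2`.  If `r_k = 0` then `s_k = 0`.  So
`r_k ≠ 0`, and `r_k^2 ∣ s_k^2` (`C (f.coeff 0)` is a unit), so `r_k ∣ s_k`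
(`pow_dvd_pow_iff` in a normalized gcd domain, or `IsIntegrallyClosed`), `s_k = r_k h` and
`f = C (f.coeff 0) h^2`: contradiction to `NSq`. -/
def StIn : Prop := ∀ (F : Type) [Field F] [Fintype F] (f : F[X]) (N A J : ℕ)
  (r s : Fin J → F[X]), 2 * N + 1 = Fintype.card F → f.coeff 0 ≠ 0 → NSq f →
  2 * A + f.natDegree ≤ Fintype.card F → (∀ j, (r j).degree < (A : ℕ) ∧ (s j).degree < (A : ℕ)) →
  ∑ j, (r j + s j * f ^ N) * X ^ (Fintype.card F * (j : ℕ)) = 0 → ∀ j, r j = 0 ∧ s j = 0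

/-- (Li, MEDIUM) Linear algebra.  Unknowns: the coefficients `(v, w) : (Fin J → Fin A → F)²` of
`r_j = ∑_(i<A) C (v j i) X^i` and `s_j`; `2 J A` unknowns.  For `k < l` the polynomial
`∑_j (T k (r j) + U k (s j)) X^j` has degree `≤ (A - 1) + k m + (J - 1)` (`A, J ≥ 1` by the
hypothesis), so it is zero if its coefficients of index `< A + J + k m` are: together
`l (A + J) + m l (l-1)/2 < 2 J A` linear equations
(`LinearMap.exists_ne_zero_of_...` or `LinearMap.ker_ne_bot_of_finrank_lt`; target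
`(Σ k : Fin l, Fin (A + J + k m)) → F`). -/
def StLi : Prop := ∀ (F : Type) [Field F] (A J l m : ℕ) (T U : ℕ → F[X] →ₗ[F] F[X]),
  (∀ k r, (T k r).natDegree ≤ r.natDegree + k * m) →
  (∀ k r, (U k r).natDegree ≤ r.natDegree + k * m) →
  2 * (l * (A + J)) + m * (l * (l - 1)) < 4 * (J * A) →
  ∃ r s : Fin J → F[X], (∀ j, (r j).degree < (A : ℕ) ∧ (s j).degree < (A : ℕ)) ∧
    ¬ (∀ j, r j = 0 ∧ s j = 0) ∧ ∀ k < l, ∑ j, (T k (r j) + U k (s j)) * X ^ (j : ℕ) = 0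

/-- (De, MEDIUM) The Hasse derivatives at the points with `f(x)^N = a`.  By linearity and `StXQ`,
`E^k (∑_j (r_j + s_j f^N) X^(Q j)) = ∑_j (E^k r_j + ∑_(i+i'=k) E^i s_j * E^(i') (f^N)) X^(Q j)`
(`hasseDeriv_mul`).  Multiply by `f^k = f^i f^(i')` and use `f^(i') E^(i') (f^N) = f^N P_(i')`.
Evaluate at `x`: `f(x)^N = a` and `x^(Q j) = x^j` (`FiniteField.pow_card`).  USES XQ. -/
def StDe : Prop := ∀ (F : Type) [Field F] [Fintype F] (f : F[X]) (N J : ℕ) (a : F)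
  (P : ℕ → F[X]), (∀ k, f ^ k * hasseDeriv k (f ^ N) = f ^ N * P k) →
  ∀ (r s : Fin J → F[X]) (k : ℕ), k < Fintype.card F → ∀ x : F, (f.eval x) ^ N = a →
  (f.eval x) ^ k * (hasseDeriv k
      (∑ j, (r j + s j * f ^ N) * X ^ (Fintype.card F * (j : ℕ)))).eval x =
    (∑ j, (f ^ k * hasseDeriv k (r j) + C a * ∑ i ∈ antidiagonal k,
      f ^ i.1 * hasseDeriv i.1 (s j) * P i.2) * X ^ (j : ℕ)).eval x

/-- (St, MEDIUM) Stepanov's theorem.  `m = f.natDegree`, `Q = R^2`, `A = (Q - m)/2`,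
`J = (R + m + 4)/2` (natural divisions), `l = R`.  `P k` from `StPk`, `T k r = f^k E^k r`,
`U k s = C a * ∑_(i+i'=k) f^i (E^i s) (P i')` (degrees `≤ deg + k m`).  The inequality of `StLi`,
`2 R (A + J) + m R (R - 1) < 4 J A`: with `2 A = Q - m - e`, `2 J = R + m + 4 - d`, `e, d ∈ {0, 1}`,
the difference of the two sides is
`(Q - m - e)(m + 4 - d) - R (R + m + 4 - d) - m R (R - 1) ≥ 2 R^2 - 3 R - (m + 1)(m + 3) > 0` for
`R ≥ m + 3`.  `StLi` gives `r, s`; `G = ∑ (r_j + s_j f^N) X^(Q j) ≠ 0` by `StIn`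
(`2 A + m ≤ Q`).  Let `S = {x : f(x)^N = a}`.  For `x ∈ S`: `f(x) ≠ 0` (`N ≥ 1`), so by `StDe`
`(E^k G)(x) = 0` for `k < R` (`≤ Q`), and `(X - x)^R ∣ G` (`StVa`).  `StCn`: `R |S| ≤ deg G` and
`2 deg G ≤ 2 A + m (Q - 1) + 2 Q (J - 1) ≤ Q (R + 2 m + 3)`.  Divide by `R`.
USES Pk Va Cn In Li De. -/
def StSt : Prop := ∀ (F : Type) [Field F] [Fintype F] (f : F[X]) (R N : ℕ) (a : F),
  Fintype.card F = R ^ 2 → 2 * N + 1 = R ^ 2 → f.coeff 0 ≠ 0 → NSq f → f.natDegree + 3 ≤ R →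
  a ≠ 0 → 2 * Nat.card {x : F // (f.eval x) ^ N = a} ≤ R ^ 2 + (2 * f.natDegree + 3) * R

/-- (Ch, EASY-MEDIUM) `Q = R^2` is odd, `N = (Q - 1)/2`; `χ(z) = z^N` in `F`
(`quadraticChar_eq_pow_of_char_ne_two'`; `1 ≠ -1`), so `n₊ = #{f(x)^N = 1}`, `n₋ = #{f(x)^N = -1}`,
both `≤ (Q + (2m+3)R)/2` (`StSt`), and `n₊ + n₋ ≥ Q - m` (`f` has at most `m` roots).  The sum is
`n₊ - n₋ = 2 n₊ - (n₊ + n₋) ≤ (2m+3) R + m ≤ (3m+3) R`, and in the same way from below.  USES St. -/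
def StCh : Prop := ∀ (F : Type) [Field F] [Fintype F] [DecidableEq F] (f : F[X]) (R : ℕ),
  Fintype.card F = R ^ 2 → Odd R → f.coeff 0 ≠ 0 → NSq f → f.natDegree + 3 ≤ R →
  |∑ x : F, quadraticChar F (f.eval x)| ≤ (3 * f.natDegree + 3) * R

/-! ### Part B: Kloosterman sums and a hyperelliptic curve -/

/-- (Se, EASY-MEDIUM) `f = (X^p - X)^2 - C (4 d)`.  `derivative f = 2 (X^p - X) (p X^(p-1) - 1) =
-2 (X^p - X)` in characteristic `p`, so `f + C (1/2) (X^p - X) * derivative f = -C (4 d)`, a unit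
(`p ≠ 2`): `f` is separable.  If `f = C c * h^2` then `h ∣ f` and `h ∣ derivative f`, so `h` is a
unit and `f` is constant, but its degree is `2 p`. -/
def StSe : Prop := ∀ (p : ℕ) [Fact p.Prime] (F : Type) [Field F] [CharP F p], p ≠ 2 → ∀ d : F,
  d ≠ 0 → ((X ^ p - X) ^ 2 - C (4 * d) : F[X]).natDegree = 2 * p ∧
    ((X ^ p - X) ^ 2 - C (4 * d) : F[X]).coeff 0 ≠ 0 ∧ NSq ((X ^ p - X) ^ 2 - C (4 * d) : F[X])

/-- (Qu, EASY-MEDIUM) For `x ≠ 0` the equation says `A x^2 - t x + B = 0` (and `x = 0` is no solution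
of it, as `B ≠ 0`), that is `(2 A x - t)^2 = t^2 - 4 A B`; `x ↦ 2 A x - t` is a bijection of `F`, and
`quadraticChar_card_sqrts` counts the square roots. -/
def StQu : Prop := ∀ (F : Type) [Field F] [Fintype F] [DecidableEq F], ringChar F ≠ 2 →
  ∀ A B t : F, A ≠ 0 → B ≠ 0 →
  ((Nat.card {x : F // x ≠ 0 ∧ A * x + B * x⁻¹ = t} : ℕ) : ℤ) =
    1 + quadraticChar F (t ^ 2 - 4 * A * B)

/-- (Tr, MEDIUM) Additive Hilbert 90 by counting.  `φ(y) = y^p - y` is additive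
(`add_pow_char` / `frobenius`), its kernel is `{y : y^p = y}`, the image of `ZMod p`, with `p`
elements (`FiniteField` / `ZMod.pow_card`; at most `p` roots of `X^p - X`).  So the image of `φ` has
`Q/p` elements and every nonempty fibre has `p`.  `Tr (y^p) = Tr y` (`Algebra.trace` is invariant
under automorphisms, or `FiniteField.algebraMap_trace_eq_sum_pow` in Mathlib), so the image of `φ` is
contained in the kernel of the trace, which has `Q/p` elements because the trace is onto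
(`Algebra.trace_surjective`).  So they are equal. -/
def StTr : Prop := ∀ (p : ℕ) [Fact p.Prime] (F : Type) [Field F] [Fintype F]
  [Algebra (ZMod p) F] (z : F),
  (Algebra.trace (ZMod p) F z = 0 → Nat.card {y : F // y ^ p - y = z} = p) ∧
  (Algebra.trace (ZMod p) F z ≠ 0 → Nat.card {y : F // y ^ p - y = z} = 0)

/-- (Su, MEDIUM) Interchange the sums.  For `x ≠ 0` and `w = a • x + b • x⁻¹`:
`∑_c ψ(Tr (c • w)) = ∑_c ψ(c Tr w) = p [Tr w = 0]` (`ψ` is primitive: `ZMod.isPrimitive_stdAddChar`,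
`AddChar.sum_mulShift`), which is the number of `y` with `y^p - y = w` (`StTr`).  So the left side is
the number of pairs `(x, y)`, `x ≠ 0`, `a • x + b • x⁻¹ = y^p - y`, and `StQu` counts the `x` for
given `y`.  USES Qu Tr. -/
def StSu : Prop := ∀ (p : ℕ) [Fact p.Prime] (F : Type) [Field F] [Fintype F] [DecidableEq F]
  [Algebra (ZMod p) F], p ≠ 2 → ∀ a b : ZMod p, a ≠ 0 → b ≠ 0 →
  ∑ c : ZMod p, KF p F (c * a) (c * b) = (Fintype.card F : ℂ) +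
    ((∑ y : F, quadraticChar F ((y ^ p - y) ^ 2 - 4 * algebraMap (ZMod p) F (a * b)) : ℤ) : ℂ)

/-- (Bd, EASY-MEDIUM) The term `c = 0` of `StSu` is `KF p F 0 0 = Q - 1`.  So the sum is
`1 + ∑_y χ(f(y))` with `f = (X^p - X)^2 - C (4 d)`, `d = a b` in `F`, and by `StSe`, `StCh` its
absolute value is `≤ 1 + (6 p + 3) R ≤ (6 p + 4) R`.  USES Su Se Ch. -/
def StBd : Prop := ∀ (p : ℕ) [Fact p.Prime] (F : Type) [Field F] [Fintype F]
  [Algebra (ZMod p) F] (R : ℕ), p ≠ 2 → Fintype.card F = R ^ 2 → 2 * p + 3 ≤ R →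
  ∀ a b : ZMod p, a ≠ 0 → b ≠ 0 →
  ‖∑ c ∈ (univ : Finset (ZMod p)).erase 0, KF p F (c * a) (c * b)‖ ≤ (6 * p + 4) * R

/-! ### Part C: the `L`-function -/

/-- (Mo, EASY) `Mon p n` is the set of the monic polynomials of degree `n`: `X^n + lower terms` is
monic of degree `n`, and conversely take `v i = h.coeff i` (`as_sum_range`). -/
def StMo : Prop := ∀ (p : ℕ) [Fact p.Prime] (n : ℕ) (h : (ZMod p)[X]),
  h ∈ Mon p n ↔ h.Monic ∧ h.natDegree = n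

/-- (Et, EASY-MEDIUM) For monic `g`, `h`: `nextCoeff (g h) = nextCoeff g + nextCoeff h`
(`Monic.nextCoeff_mul`), `(g h)(0) = g(0) h(0)`, `(g h)_1 = g_0 h_1 + g_1 h_0`, so
`(g h)_1/(g h)_0 = g_1/g_0 + h_1/h_0` if `g_0, h_0 ≠ 0`; `ψ` is a character. -/
def StEt : Prop := ∀ (p : ℕ) [Fact p.Prime] (a b : ZMod p), eta p a b 1 = 1 ∧
  ∀ g h : (ZMod p)[X], g.Monic → h.Monic → eta p a b (g * h) = eta p a b g * eta p a b h

/-- (C1, EASY-MEDIUM) `cn 0 = 1` (`Mon p 0 = {1}`) and `cn 1 = ∑_v η(X + v) =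
∑_(v≠0) ψ(-a v - b/v) = KS p a b` (`x = -v`). -/
def StC1 : Prop := ∀ (p : ℕ) [Fact p.Prime] (a b : ZMod p),
  cn p a b 0 = 1 ∧ cn p a b 1 = KS p a b

/-- (C2, EASY-MEDIUM) The map from `(u, v)` to `X^2 + u X + v` is injective.
`cn 2 = ∑_(v≠0) ∑_u ψ(-u (a + b/v))`, the inner sum is `p` if `a + b/v = 0`, that is `v = -b/a`
(one value, not zero), and `0` otherwise. -/
def StC2 : Prop := ∀ (p : ℕ) [Fact p.Prime] (a b : ZMod p), a ≠ 0 → b ≠ 0 → cn p a b 2 = p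

/-- (C3, MEDIUM) `n ≥ 3`: `η(X^n + ∑ v_i X^i) = ψ(-a v_(n-1) - b v_1/v_0)` for `v_0 ≠ 0`, and `n - 1`
is different from `0` and `1`; the sum over `v_(n-1)` (the other coordinates fixed) is
`∑_u ψ(-a u) · const = 0` as `a ≠ 0`.  Or: translation `v_(n-1) ↦ v_(n-1) + u` multiplies the sum by
`ψ(-a u)`, which is not `1` for some `u`. -/
def StC3 : Prop := ∀ (p : ℕ) [Fact p.Prime] (a b : ZMod p), a ≠ 0 → ∀ n : ℕ, 3 ≤ n →
  cn p a b n = 0

/-- (Ne, MEDIUM-HARD) Newton's identity.  For `h ∈ Mon p n` unique factorization gives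
`n = ∑_P v_P(h) deg P`, the sum over the monic irreducible `P`, and `v_P(h)` is the number of
`k ≥ 1` with `P^k ∣ h`.  So `n η(h)` is the sum of `d η(h)` over the triples `(d, P, k)`, `d ≥ 1`,
`P ∈ Irr p d`, `1 ≤ k`, `k d ≤ n`, `P^k ∣ h`.  Sum over `h ∈ Mon p n`: `h = P^k h'`, `h' ∈ Mon p (n - k d)`
(a bijection), `η(h) = η(P)^k η(h')` (`StEt`).  So
`n cn n = ∑_(d,P,k) d η(P)^k cn (n - k d)`; put `j = k d`: `d ∣ j`, `k = j/d`.  USES Mo Et. -/
def StNe : Prop := ∀ (p : ℕ) [Fact p.Prime] (a b : ZMod p) (n : ℕ), 1 ≤ n →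
  (n : ℂ) * cn p a b n = ∑ j ∈ Icc 1 n, Lam p a b j * cn p a b (n - j)

/-- (Tm, MEDIUM) Let `P = minpoly (ZMod p) x`, `d` its degree, `n = [F : ZMod p]`.
`Tr x = -(n/d) P.nextCoeff` (`trace_eq_finrank_mul_minpoly_nextCoeff`, `[F : (ZMod p)(x)] = n/d`).  The
minimal polynomial of `x⁻¹` is `P.reverse` divided by `P(0)` (monic, of degree `d`, it vanishes at
`x⁻¹`: `eval₂_reverse_eq_zero_iff`; `(ZMod p)(x⁻¹) = (ZMod p)(x)`), its `nextCoeff` is
`P.coeff 1 / P.coeff 0`.  So `ψ(Tr (a x + b x⁻¹)) = ψ(-(n/d)(a P.nextCoeff + b P_1/P_0)) =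
η(P)^(n/d)`.  (Case `d = 1`: `nextCoeff` is the coefficient of index `0`.) -/
def StTm : Prop := ∀ (p : ℕ) [Fact p.Prime] (F : Type) [Field F] [Fintype F]
  [Algebra (ZMod p) F] (a b : ZMod p) (x : F), x ≠ 0 →
  (minpoly (ZMod p) x).natDegree ∣ Module.finrank (ZMod p) F ∧
  ZMod.stdAddChar (Algebra.trace (ZMod p) F (a • x + b • x⁻¹)) =
    eta p a b (minpoly (ZMod p) x) ^
      (Module.finrank (ZMod p) F / (minpoly (ZMod p) x).natDegree)

/-- (Fb, MEDIUM) Let `P` be monic irreducible of degree `d ∣ n`, `card F = p^n`.  `P` divides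
`X^(p^n) - X` over `ZMod p` (for a root `y` of `P` in an algebraic closure, `y^(p^d) = y`, so
`y^(p^n) = y`; Mathlib has this in `FieldTheory/Finite`), which splits in `F` with different roots
(all the elements of `F`); so `P` has exactly `d` roots in `F`, and they are the `x` with
`minpoly x = P`. -/
def StFb : Prop := ∀ (p : ℕ) [Fact p.Prime] (F : Type) [Field F] [Fintype F]
  [Algebra (ZMod p) F] (P : (ZMod p)[X]), P.Monic → Irreducible P →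
  P.natDegree ∣ Module.finrank (ZMod p) F →
  Nat.card {x : F // minpoly (ZMod p) x = P} = P.natDegree

/-- (La, MEDIUM) Group the `x ≠ 0` in `F` by their minimal polynomial: by `StTm` the term of `x` is
`η(P)^(n/d)`, `P = minpoly x ∈ Irr p d`, `d ∣ n`, and by `StFb` every `P ∈ Irr p d` with `d ∣ n`
has `d` such `x` (for `P = X`, `x = 0` and `η(X)^n = 0`, `n ≥ 1`).  USES Tm Fb Mo. -/
def StLa : Prop := ∀ (p : ℕ) [Fact p.Prime] (F : Type) [Field F] [Fintype F]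
  [Algebra (ZMod p) F] (a b : ZMod p),
  KF p F a b = Lam p a b (Module.finrank (ZMod p) F)

/-- (Re, EASY) `n = 1`: `L 1 = c 1 = K = -(α + β)`.  `n = 2`: `2 q = L 1 c 1 + L 2`, so
`L 2 = 2 q - K^2 = -(α^2 + β^2)`.  `n ≥ 3`: `0 = L n + L (n-1) K + L (n-2) q`, and
`α^n + β^n = (α + β)(α^(n-1) + β^(n-1)) - α β (α^(n-2) + β^(n-2))`.  Strong induction. -/
def StRe : Prop := ∀ (c L : ℕ → ℂ) (K q α β : ℂ), c 0 = 1 → c 1 = K → c 2 = q →
  (∀ n, 3 ≤ n → c n = 0) →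
  (∀ n : ℕ, 1 ≤ n → (n : ℂ) * c n = ∑ j ∈ Icc 1 n, L j * c (n - j)) →
  α + β = -K → α * β = q → ∀ n : ℕ, 1 ≤ n → L n = -(α ^ n + β ^ n)

/-! ### Part D: the end -/

/-- (Cl, EASY-MEDIUM) The sequence `t ↦ (u i ^ t)_i` lies in a compact set, so it has a convergent
subsequence, and there are `t₁`, `t₂ ≥ t₁ + T` with `‖u i ^ t₂ - u i ^ t₁‖ < ε` for all `i`; divide by
`u i ^ t₁`: `‖u i ^ (t₂ - t₁) - 1‖ < ε`. -/
def StCl : Prop := ∀ (ι : Type) [Fintype ι] (u : ι → ℂ), (∀ i, ‖u i‖ = 1) → ∀ ε : ℝ, 0 < ε →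
  ∀ T : ℕ, ∃ t : ℕ, T ≤ t ∧ ∀ i, ‖u i ^ t - 1‖ < ε

/-- (Po, EASY-MEDIUM) Let `u i = ω i / ‖ω i‖` (`u i = 1` if `ω i = 0`).  By `StCl` there are infinitely many
`t ≥ max T 1` with `‖u i ^ t - 1‖ < 1/2`, so `Re (ω i ^ t) ≥ ‖ω i‖^t/2` for all `i`, and
`‖ω i‖^t/2 ≤ Re ∑ ω_j^t ≤ B r^t`.  If `‖ω i‖ > r` then `(‖ω i‖/r)^t > 2 B` for all large `t`:
contradiction.  USES Cl. -/
def StPo : Prop := ∀ (ι : Type) [Fintype ι] (ω : ι → ℂ) (B r : ℝ) (T : ℕ), 0 < r →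
  (∀ t : ℕ, T ≤ t → ‖∑ i, ω i ^ t‖ ≤ B * r ^ t) → ∀ i, ‖ω i‖ ≤ r

/-- (We, MEDIUM) Weil's bound.  `p = 2`: `KS` has one term, of absolute value `1`.  Let `p` be odd.
For `c ≠ 0` let `α_c`, `β_c` be the roots of `T^2 + KS p (c a) (c b) T + p` (`α + β = -KS`,
`α β = p`).  For `t ≥ 2` let `F = GaloisField p (2 t)`, `card F = (p^t)^2`, `p^t ≥ 2 p + 3`.
`KF p F (c a) (c b) = Lam (2 t) = -(α_c^(2t) + β_c^(2t))` (`StLa`, `StRe` with `StC1`, `StC2`, `StC3`,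
`StNe`), so by `StBd` `‖∑_(c≠0) ((α_c^2)^t + (β_c^2)^t)‖ ≤ (6 p + 4) p^t`.  `StPo` (index type: two
copies of the nonzero `c`) gives `‖α_c‖^2, ‖β_c‖^2 ≤ p`; for `c = 1`:
`‖KS p a b‖ = ‖α + β‖ ≤ 2 √p`.  USES C1 C2 C3 Ne La Re Bd Po. -/
def StWe : Prop := ∀ (p : ℕ) [Fact p.Prime] (a b : ZMod p), a ≠ 0 → b ≠ 0 →
  ‖KS p a b‖ ≤ 2 * Real.sqrt p

/-! ### Part E: all residues, squarefree moduli -/

/-- (P1, EASY) Prime modulus, all residues: `a, b ≠ 0`: `StWe`.  `a = b = 0`: `KS = p - 1`.  Exactly one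
of them zero: `∑_(x≠0) ψ(a x) = -1` (`x ↦ x⁻¹` is a bijection of the units).
`Nat.gcd (Nat.gcd a.val b.val) p` is `p` if `a = b = 0` and `1` otherwise.  USES We. -/
def StP1 : Prop := ∀ (p : ℕ) [Fact p.Prime] (a b : ZMod p),
  ‖KS p a b‖ ≤ 2 * Real.sqrt (p * Nat.gcd (Nat.gcd a.val b.val) p)

/-- (Mu, MEDIUM) Multiplicativity.  `u` is the inverse of `n` modulo `m` and `v` the inverse of `m` modulo
`n`.  By the Chinese remainder theorem `x ↔ (y, z)`, and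
`x/(m n) = y u/m + z v/n` modulo `1`: `e_(mn)(w) = e_m(u w) e_n(v w)` for every integer `w`
(`u n + v m = 1` modulo `m n`).  Apply this to `w = a x + b x̄`. -/
def StMu : Prop := ∀ (m n : ℕ) [NeZero m] [NeZero n] [NeZero (m * n)], Nat.Coprime m n →
  ∀ a b : ℕ, KS (m * n) a b =
    KS m ((a : ZMod m) * (n : ZMod m)⁻¹) ((b : ZMod m) * (n : ZMod m)⁻¹) *
      KS n ((a : ZMod n) * (m : ZMod n)⁻¹) ((b : ZMod n) * (m : ZMod n)⁻¹)

/-- (Sq, EASY-MEDIUM) Squarefree moduli.  Induction on the set of the prime factors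
(`Nat.recOnPosPrimePosCoprime` or `induction_on_primes`): `StMu` and `StP1`;
`gcd (a ū, b ū, p) = gcd (a, b, p)` for a unit `u` and `gcd (a, b, m n) = gcd (a, b, m) gcd (a, b, n)`
for coprime `m`, `n`.  USES P1 Mu. -/
def StSq : Prop := ∀ (q : ℕ) [NeZero q], Squarefree q → ∀ a b : ℕ,
  ‖KS q a b‖ ≤ 2 ^ q.primeFactors.card * Real.sqrt (q * Nat.gcd (Nat.gcd a b) q)

end Pool.Agent.Work.MP_122e00_nt.WEIL
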